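import Pool.Agent.H52.PSR.Targets

/-!
MP_29035e_co, board psr_modules, row DG: normal form of non-singular quadratic forms over a finite
field of odd order.
-/

set_option autoImplicit false

namespace Pool.Agent.H12.PSR

open Module Pool.Agent.H41.SP Pool.Agent.H52.PSR

universe u v

/-- a change of the first two coordinates -/
def ch2 {F : Type u} [Field F] (n : ℕ) (a b x y : F) (h : a * x ^ 2 + b * y ^ 2 = 1) :
    (Fin (n + 2) → F) ≃ₗ[F] (Fin (n + 2) → F) where
  toFun w i := if i = 0 then a * x * w 0 + b * y * w 1 else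
    if i = 1 then -(y * w 0) + x * w 1 else w i
  invFun w i := if i = 0 then x * w 0 - b * y * w 1 else
    if i = 1 then y * w 0 + a * x * w 1 else w i
  map_add' w w' := by
    ext i
    by_cases h0 : i = 0
    · simp [h0]; ring
    · by_cases h1 : i = 1
      · simp [h1]; ring
      · simp [h0, h1]
  map_smul' c w := by
    ext i
    by_cases h0 : i = 0
    · simp [h0]; ring
    · by_cases h1 : i = 1
      · simp [h1]; ring
      · simp [h0, h1]
  left_inv w := by
    ext i
    by_cases h0 : i = 0
    · subst h0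
      simp
      linear_combination w 0 * h
    · by_cases h1 : i = 1
      · subst h1
        simp
        linear_combination w 1 * h
      · simp [h0, h1]
  right_inv w := by
    ext i
    by_cases h0 : i = 0
    · subst h0
      simp
      linear_combination w 0 * h
    · by_cases h1 : i = 1
      · subst h1
        simp
        linear_combination w 1 * h
      · simp [h0, h1]

/-- a linear equivalence on all coordinates but the first -/
def tl {F : Type u} [Field F] (m : ℕ) (g : (Fin m → F) ≃ₗ[F] (Fin m → F)) :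
    (Fin (m + 1) → F) ≃ₗ[F] (Fin (m + 1) → F) where
  toFun w := Fin.cons (w 0) (g (fun i => w i.succ))
  invFun w := Fin.cons (w 0) (g.symm (fun i => w i.succ))
  map_add' w w' := by
    ext i
    refine Fin.cases ?_ (fun j => ?_) i
    · simp
    · have : (fun i : Fin m => (w + w') i.succ) = (fun i => w i.succ) + fun i => w' i.succ := rfl
      simp only [Fin.cons_succ, Pi.add_apply]
      change g (fun i : Fin m => (w + w') i.succ) j = _
      rw [this, map_add]
      rfl
  map_smul' c w := by
    ext i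
    refine Fin.cases ?_ (fun j => ?_) i
    · simp
    · have : (fun i : Fin m => (c • w) i.succ) = c • (fun i => w i.succ) := rfl
      simp only [Fin.cons_succ, Pi.smul_apply, RingHom.id_apply]
      change g (fun i : Fin m => (c • w) i.succ) j = _
      rw [this, map_smul]
      rfl
  left_inv w := by
    ext i
    refine Fin.cases ?_ (fun j => ?_) i
    · simp
    · simp
  right_inv w := by
    ext i
    refine Fin.cases ?_ (fun j => ?_) i
    · simp
    · simp

/-- two squares -/
lemma two_sq {F : Type u} [Field F] [Finite F] (h2 : (2 : F) ≠ 0) {a b : F} (ha : a ≠ 0)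
    (hb : b ≠ 0) : ∃ x y : F, a * x ^ 2 + b * y ^ 2 = 1 := by
  classical
  let _ := Fintype.ofFinite F
  have hchar : ringChar F ≠ 2 := by
    intro h
    apply h2
    have := (ringChar.spec F 2).2 (by rw [h])
    exact_mod_cast this
  have hodd := FiniteField.odd_card_of_char_ne_two hchar
  obtain ⟨x, y, hxy⟩ := FiniteField.exists_root_sum_quadratic
    (f := Polynomial.C a * Polynomial.X ^ 2)
    (g := Polynomial.C b * Polynomial.X ^ 2 - 1)
    (Polynomial.degree_C_mul_X_pow 2 ha) (by
      have h1 : (Polynomial.C b * Polynomial.X ^ 2 - 1 : Polynomial F) =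
        Polynomial.C b * Polynomial.X ^ 2 + Polynomial.C 0 * Polynomial.X +
          Polynomial.C (-1) := by
        simp [sub_eq_add_neg]
      rw [h1]
      exact Polynomial.degree_quadratic hb) hodd
  refine ⟨x, y, ?_⟩
  simp at hxy
  linear_combination hxy

/-- the normal form of a diagonal form -/
lemma diag_normal {F : Type u} [Field F] [Finite F] (h2 : (2 : F) ≠ 0) (n : ℕ) :
    ∀ a : Fin (n + 1) → F, (∀ i, a i ≠ 0) →
    ∃ (d : F) (g : (Fin (n + 1) → F) ≃ₗ[F] (Fin (n + 1) → F)), d ≠ 0 ∧
      ∀ w, ∑ i, a i * w i ^ 2 = ∑ i : Fin n, g w i.castSucc ^ 2 + d * g w (Fin.last n) ^ 2 := by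
  induction n with
  | zero =>
    intro a ha
    exact ⟨a 0, LinearEquiv.refl F _, ha 0, fun w => by simp⟩
  | succ n ih =>
    intro a ha
    obtain ⟨x, y, hxy⟩ := two_sq h2 (ha 0) (ha 1)
    obtain ⟨d, g, hd, hg⟩ := ih (Fin.cons (a 0 * a 1) (fun i => a i.succ.succ)) (by
      intro i
      refine Fin.cases ?_ (fun j => ?_) i
      · simpa using ⟨ha 0, ha 1⟩
      · simpa using ha j.succ.succ)
    refine ⟨d, (ch2 n (a 0) (a 1) x y hxy).trans (tl (n + 1) g), hd, fun w => ?_⟩
    set w1 := ch2 n (a 0) (a 1) x y hxy w with hw1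
    have e0 : w1 0 = a 0 * x * w 0 + a 1 * y * w 1 := by simp [hw1, ch2]
    have e1 : w1 1 = -(y * w 0) + x * w 1 := by simp [hw1, ch2]
    have e2 : ∀ i : Fin n, w1 i.succ.succ = w i.succ.succ := by
      intro i
      have h0 : i.succ.succ ≠ 0 := Fin.succ_ne_zero _
      have h1 : i.succ.succ ≠ 1 := by
        intro h
        have := congrArg Fin.val h
        simp at this
      simp [hw1, ch2, h0, h1]
    have hg' := hg (fun i => w1 i.succ)
    have f0 : ∀ v : Fin (n + 2) → F, (tl (n + 1) g v) 0 = v 0 := fun v => rfl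
    have f1 : ∀ (v : Fin (n + 2) → F) (i : Fin (n + 1)),
        (tl (n + 1) g v) i.succ = g (fun i => v i.succ) i := fun v i => rfl
    have hL : ∑ i, a i * w i ^ 2 =
        a 0 * w 0 ^ 2 + (a 1 * w 1 ^ 2 + ∑ i : Fin n, a i.succ.succ * w i.succ.succ ^ 2) := by
      rw [Fin.sum_univ_succ, Fin.sum_univ_succ]
      rfl
    have hR : ∑ i : Fin (n + 1), (tl (n + 1) g w1) i.castSucc ^ 2 +
        d * (tl (n + 1) g w1) (Fin.last (n + 1)) ^ 2 =
        w1 0 ^ 2 + (∑ i : Fin n, g (fun i => w1 i.succ) i.castSucc ^ 2 +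
          d * g (fun i => w1 i.succ) (Fin.last n) ^ 2) := by
      rw [Fin.sum_univ_succ, add_assoc]
      rfl
    have hM : ∑ i, (Fin.cons (a 0 * a 1) (fun i => a i.succ.succ) : Fin (n + 1) → F) i *
        (fun i : Fin (n + 1) => w1 i.succ) i ^ 2 =
        a 0 * a 1 * w1 1 ^ 2 + ∑ i : Fin n, a i.succ.succ * w i.succ.succ ^ 2 := by
      rw [Fin.sum_univ_succ]
      simp only [Fin.cons_zero, Fin.cons_succ, e2]
      rfl
    rw [LinearEquiv.trans_apply, ← hw1, hL, hR, ← hg', hM, e0, e1]
    linear_combination (a 0 * w 0 ^ 2 + a 1 * w 1 ^ 2) * (- hxy)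

theorem pf_DG : T_DG.{u, v} := by
  intro F _ _ V _ _ _ Q n h2 hQ hn
  classical
  have _ : Invertible (2 : F) := invertibleOfNonzero h2
  have hsep : (QuadraticMap.associated (R := F) Q).SeparatingLeft := by
    intro x hx
    refine hQ x fun y => ?_
    have h3 := congrArg (fun B => B x y) (QuadraticMap.two_nsmul_associated F Q)
    simp only [LinearMap.smul_apply, hx y, smul_zero] at h3
    exact h3.symm
  obtain ⟨w, ⟨f⟩⟩ := QuadraticForm.equivalent_weightedSumSquares_units_of_nondegenerate' Q hsep
  let c : (Fin (finrank F V) → F) ≃ₗ[F] (Fin (n + 1) → F) :=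
    LinearEquiv.funCongrLeft F F (finCongr hn.symm)
  have hf : ∀ x, Q x = ∑ i : Fin (n + 1),
      ((w (finCongr hn.symm i) : Fˣ) : F) * (f.toLinearEquiv.trans c x i) ^ 2 := by
    intro x
    rw [← f.map_app x, QuadraticMap.weightedSumSquares_apply]
    rw [← Equiv.sum_comp (finCongr hn.symm)]
    refine Finset.sum_congr rfl fun i _ => ?_
    rw [Units.smul_def, smul_eq_mul, pow_two]
    rfl
  obtain ⟨d, g, hd, hg⟩ := diag_normal h2 n (fun i => ((w (finCongr hn.symm i) : Fˣ) : F))
    (fun i => Units.ne_zero _)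
  refine ⟨d, (f.toLinearEquiv.trans c).trans g, hd, fun x => ?_⟩
  rw [hf x, hg]
  rfl

end Pool.Agent.H12.PSR
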